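import Mathlib

set_option autoImplicit false

namespace Pool.Agent.H.MP_cc29fe_co

open SimpleGraph Function

lemma ref_le {V β γ : Type} [Finite V] (S : Set V) (f : V → β) (g : V → γ)
    (h : ∀ x ∈ S, ∀ y ∈ S, f x = f y → g x = g y) : (g '' S).ncard ≤ (f '' S).ncard := by
  rcases S.eq_empty_or_nonempty with rfl | ⟨a, _⟩
  · simp
  have : Nonempty V := ⟨a⟩
  refine le_trans (Set.ncard_le_ncard (t := (g ∘ invFunOn f S) '' (f '' S)) ?_ (Set.toFinite _))
    (Set.ncard_image_le (Set.toFinite _))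
  rintro _ ⟨x, hx, rfl⟩
  exact ⟨f x, ⟨x, hx, rfl⟩, h _ (invFunOn_mem ⟨x, hx, rfl⟩) _ hx (invFunOn_eq ⟨x, hx, rfl⟩)⟩

lemma ref_lt {V β γ : Type} [Finite V] (S : Set V) (f : V → β) (g : V → γ)
    (h : ∀ x ∈ S, ∀ y ∈ S, f x = f y → g x = g y) {p q : V} (hp : p ∈ S) (hq : q ∈ S)
    (h1 : g p = g q) (h2 : f p ≠ f q) : (g '' S).ncard < (f '' S).ncard := by
  have e1 : g '' S ⊆ g '' (S ∩ {x | f x ≠ f p}) := by
    rintro _ ⟨x, hx, rfl⟩
    by_cases e : f x = f p
    · exact ⟨q, ⟨hq, h2.symm⟩, by rw [← h1, h x hx p hp e]⟩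
    · exact ⟨x, ⟨hx, e⟩, rfl⟩
  have e2 := ref_le (S ∩ {x | f x ≠ f p}) f g (fun x hx y hy => h x hx.1 y hy.1)
  have e3 : (f '' (S ∩ {x | f x ≠ f p})).ncard < (f '' S).ncard := by
    apply Set.ncard_lt_ncard _ (Set.toFinite _)
    refine ⟨Set.image_mono Set.inter_subset_left, fun hh => ?_⟩
    obtain ⟨x, hx, e⟩ := hh ⟨p, hp, rfl⟩
    exact hx.2 e
  exact lt_of_le_of_lt ((Set.ncard_le_ncard e1 (Set.toFinite _)).trans e2) e3

variable {V α : Type}

def key (G : SimpleGraph V) (c : V → α) (x : V) : α × Set V :=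
  (c x, {z | c z ≠ c x ∧ G.Adj z x})

noncomputable def Phi (G : SimpleGraph V) (c : V → α) : ℕ := (Set.range (key G c)).ncard

def Bad (G : SimpleGraph V) (c : V → α) (u v : V) : Prop :=
  G.Adj u v ∧ c u = c v ∧ ∀ z, c z ≠ c u → (G.Adj z u ↔ G.Adj z v)

def Mx (G : SimpleGraph V) (c : V → α) : Prop := ∀ c' : V → α, Phi G c' ≤ Phi G c

lemma key_eq {G : SimpleGraph V} {c : V → α} {u v : V} :
    key G c u = key G c v ↔ c u = c v ∧ ∀ z, c z ≠ c u → (G.Adj z u ↔ G.Adj z v) := by
  constructor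
  · intro h
    have h1 : c u = c v := congrArg Prod.fst h
    have h2 : {z | c z ≠ c u ∧ G.Adj z u} = {z | c z ≠ c v ∧ G.Adj z v} := congrArg Prod.snd h
    refine ⟨h1, fun z hz => ?_⟩
    have := Set.ext_iff.1 h2 z
    simp only [Set.mem_ofPred_eq] at this
    exact ⟨fun a => (this.1 ⟨hz, a⟩).2, fun a => (this.2 ⟨h1 ▸ hz, a⟩).2⟩
  · rintro ⟨h1, h2⟩
    refine Prod.ext h1 (Set.ext fun z => ?_)
    exact ⟨fun a => ⟨h1 ▸ a.1, (h2 z a.1).1 a.2⟩, fun a => ⟨h1 ▸ a.1, (h2 z (h1 ▸ a.1)).2 a.2⟩⟩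

lemma Bad.symm {G : SimpleGraph V} {c : V → α} {u v : V} (h : Bad G c u v) : Bad G c v u :=
  ⟨h.1.symm, h.2.1.symm, fun z hz => (h.2.2 z (h.2.1 ▸ hz)).symm⟩

lemma exists_mx [Finite V] [Finite α] [Nonempty α] (G : SimpleGraph V) :
    ∃ c : V → α, Mx G c := Finite.exists_max (Phi G)

lemma move [Finite V] [DecidableEq V] {G : SimpleGraph V} {c : V → α} {u v : V} {d : α}
    (hm : Mx G c) (hb : Bad G c u v) (hd : d ≠ c u) :
    ∃ w, c w = d ∧ Mx G (update c u d) ∧ Bad G (update c u d) u w := by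
  set c' := update c u d with hc'
  have hvu : v ≠ u := hb.1.ne.symm
  have cu : c' u = d := by simp [hc']
  have co : ∀ z, z ≠ u → c' z = c z := fun z hz => by simp [hc', hz]
  have h1 : Set.range (key G c) = key G c '' {u}ᶜ := by
    ext y
    constructor
    · rintro ⟨x, rfl⟩
      by_cases hx : x = u
      · exact ⟨v, hvu, by rw [hx]; exact (key_eq.2 hb.2).symm⟩
      · exact ⟨x, hx, rfl⟩
    · rintro ⟨x, _, rfl⟩
      exact ⟨x, rfl⟩
  have h2 : (key G c '' {u}ᶜ).ncard ≤ (key G c' '' {u}ᶜ).ncard := by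
    apply ref_le
    intro x hx y hy h
    have hx' : x ≠ u := hx
    have hy' : y ≠ u := hy
    obtain ⟨e1, e2⟩ := key_eq.1 h
    rw [co x hx'] at e1 e2
    rw [co y hy'] at e1
    refine key_eq.2 ⟨e1, fun z hz => ?_⟩
    by_cases hz' : z = u
    · subst hz'
      have a := hb.2.2 x hz.symm
      have b := hb.2.2 y (e1 ▸ hz.symm)
      have e := e2 v (by rw [co v hvu, ← hb.2.1]; exact hz)
      rw [G.adj_comm z x, G.adj_comm z y, a, b, G.adj_comm x v, G.adj_comm y v, e]
    · exact e2 z (by rw [co z hz']; exact hz)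
  have h3 : key G c' '' {u}ᶜ ⊆ Set.range (key G c') := Set.image_subset_range _ _
  have h4 : Phi G c ≤ Phi G c' := by
    unfold Phi
    rw [h1]
    exact h2.trans (Set.ncard_le_ncard h3 (Set.toFinite _))
  have h5 : key G c' u ∈ key G c' '' {u}ᶜ := by
    by_contra hn
    have := Set.ncard_lt_ncard (s := key G c' '' {u}ᶜ) (t := Set.range (key G c'))
      ⟨h3, fun hh => hn (hh ⟨u, rfl⟩)⟩ (Set.toFinite _)
    have h6 := hm c'
    unfold Phi at h6
    rw [h1] at h6
    omega
  obtain ⟨w, hw, e⟩ := h5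
  have hw' : w ≠ u := hw
  obtain ⟨e1, e2⟩ := key_eq.1 e.symm
  have cw : c w = d := by rw [← co w hw', ← e1, cu]
  refine ⟨w, cw, fun c'' => (hm c'').trans h4, ?_, e1, e2⟩
  have a : G.Adj v w := (e2 v (by rw [co v hvu, cu, ← hb.2.1]; exact hd.symm)).1 hb.1.symm
  exact ((hb.2.2 w (by rw [cw]; exact hd)).2 a.symm).symm

lemma nocl [Fintype α] {G : SimpleGraph V} (hf : G.CliqueFree (Fintype.card α + 2)) (k : α → V)
    (hk : ∀ d e, d ≠ e → G.Adj (k d) (k e)) {v z : V} (hv : ∀ d, G.Adj v (k d))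
    (hz : ∀ d, G.Adj z (k d)) (hzv : G.Adj z v) : False := by
  classical
  have inj : Injective k := fun d e h => by
    by_contra hn
    exact (hk d e hn).ne h
  have h0 : G.IsNClique (Fintype.card α) (Finset.univ.image k) := by
    refine ⟨?_, by rw [Finset.card_image_of_injective _ inj, Finset.card_univ]⟩
    intro a ha b hb hab
    simp only [Finset.coe_image, Finset.coe_univ, Set.image_univ, Set.mem_range] at ha hb
    obtain ⟨d, rfl⟩ := ha
    obtain ⟨e, rfl⟩ := hb
    exact hk d e fun h => hab (by rw [h])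
  have h1 := h0.insert (a := v) (by
    intro b hb
    obtain ⟨d, _, rfl⟩ := Finset.mem_image.1 hb
    exact hv d)
  have h2 := h1.insert (a := z) (by
    intro b hb
    rcases Finset.mem_insert.1 hb with rfl | hb
    · exact hzv
    · obtain ⟨d, _, rfl⟩ := Finset.mem_image.1 hb
      exact hz d)
  exact hf _ h2

lemma partners [Finite V] [DecidableEq V] {G : SimpleGraph V} {c : V → α} {u v : V}
    (hm : Mx G c) (hb : Bad G c u v) :
    ∃ k : α → V, k (c u) = u ∧ (∀ d, c (k d) = d) ∧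
      (∀ d, d ≠ c u → Mx G (update c u d) ∧ Bad G (update c u d) u (k d)) ∧
      (∀ d e, d ≠ e → G.Adj (k d) (k e)) ∧ ∀ d, G.Adj v (k d) := by
  have h : ∀ d, ∃ w, c w = d ∧ (d = c u → w = u) ∧
      (d ≠ c u → Mx G (update c u d) ∧ Bad G (update c u d) u w) := by
    intro d
    by_cases hd : d = c u
    · exact ⟨u, hd.symm, fun _ => rfl, fun h => absurd hd h⟩
    · obtain ⟨w, h1, h2⟩ := move hm hb hd
      exact ⟨w, h1, fun h => absurd h hd, fun _ => h2⟩
  choose k k1 k2 k3 using h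
  have ku : k (c u) = u := k2 _ rfl
  have adj : ∀ d, d ≠ c u → ∀ z, c z ≠ d → G.Adj z u → G.Adj z (k d) := by
    intro d hd z hz a
    refine ((k3 d hd).2.2.2 z ?_).1 a
    rw [update_of_ne a.ne, update_self]
    exact hz
  refine ⟨k, ku, k1, k3, ?_, ?_⟩
  · intro d e hde
    by_cases hd : d = c u
    · rw [hd, ku]
      exact (k3 e (fun h => hde (hd.trans h.symm))).2.1
    · by_cases he : e = c u
      · rw [he, ku]
        exact (k3 d hd).2.1.symm
      · exact adj e he _ (by rw [k1]; exact hde) (k3 d hd).2.1.symm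
  · intro d
    by_cases hd : d = c u
    · rw [hd, ku]
      exact hb.1.symm
    · exact adj d hd v (by rw [← hb.2.1]; exact fun h => hd h.symm) hb.1.symm

lemma twin [Finite V] [DecidableEq V] [Fintype α] {G : SimpleGraph V}
    (hf : G.CliqueFree (Fintype.card α + 2)) (h3 : 3 ≤ Fintype.card α) {c : V → α} {u v : V}
    (hm : Mx G c) (hb : Bad G c u v) (z : V) (hu : z ≠ u) (hv : z ≠ v) :
    G.Adj z u ↔ G.Adj z v := by
  classical
  obtain ⟨d, hd⟩ : ∃ d, d ≠ c u := by
    have : Nontrivial α := Fintype.one_lt_card_iff_nontrivial.1 (by omega)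
    exact exists_ne _
  obtain ⟨e, he1, he2⟩ : ∃ e, e ≠ c u ∧ e ≠ d := by
    by_contra hn
    have : (Finset.univ : Finset α) ⊆ {c u, d} := by
      intro e _
      by_contra h
      simp only [Finset.mem_insert, Finset.mem_singleton, not_or] at h
      exact hn ⟨e, h⟩
    have h1 := Finset.card_le_card this
    have h2 : ({c u, d} : Finset α).card ≤ 2 := Finset.card_le_two
    rw [Finset.card_univ] at h1
    omega
  obtain ⟨k, ku, k1, k3, k4, k5⟩ := partners hm hb
  obtain ⟨w, cw, _, bw⟩ := move hm hb.symm (d := d) (hb.2.1 ▸ hd)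
  have wadj : ∀ y, y ≠ v → c y ≠ d → (G.Adj y v ↔ G.Adj y w) := by
    intro y h1 h2
    refine bw.2.2 y ?_
    rw [update_of_ne h1, update_self]
    exact h2
  by_cases hw : w = k d
  · by_cases hz : c z = c u
    · have a := (k3 d hd).2.2.2 z (by
        rw [update_of_ne hu, update_self, hz]
        exact hd.symm)
      rw [a, wadj z hv (by rw [hz]; exact hd.symm), hw]
    · exact hb.2.2 z hz
  · exfalso
    have na : ¬ G.Adj w (k d) := by
      intro a
      refine nocl hf k k4 k5 (z := w) (fun d' => ?_) bw.1.symm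
      by_cases h : d' = d
      · rw [h]; exact a
      · exact ((wadj (k d') (k5 d').ne.symm (by rw [k1]; exact h)).1 (k5 d').symm).symm
    obtain ⟨m1, b1⟩ := k3 d hd
    have kdu : k d ≠ u := b1.1.ne.symm
    obtain ⟨y, cy, _, b2⟩ := move m1 b1.symm (d := e) (by
      rw [update_of_ne kdu, k1]; exact he2)
    have yu : y ≠ u := by
      rintro rfl
      rw [update_self] at cy
      exact he2 cy.symm
    rw [update_of_ne yu] at cy
    have a1 : G.Adj v y := by
      refine (b2.2.2 v ?_).1 (k5 d)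
      rw [update_of_ne (k5 d).ne, update_of_ne hb.1.ne.symm, update_self, ← hb.2.1]
      exact he1.symm
    have a2 : G.Adj y w := (wadj y a1.ne.symm (by rw [cy]; exact he2)).1 a1.symm
    have wu : w ≠ u := by
      rintro rfl
      exact hd cw.symm
    refine na ((b2.2.2 w ?_).2 a2.symm)
    rw [update_of_ne hw, update_of_ne wu, update_self, cw]
    exact he2.symm

lemma closed_univ {G : SimpleGraph V} (hc : G.Connected) (S : Set V) {a : V} (ha : a ∈ S)
    (h : ∀ x ∈ S, ∀ z, G.Adj z x → z ∈ S) (z : V) : z ∈ S := by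
  obtain ⟨p⟩ := hc.preconnected z a
  induction p with
  | nil => exact ha
  | cons a _ ih => exact h _ (ih ha) _ a

lemma no_bad [Fintype V] [Fintype α] {G : SimpleGraph V} (hc : G.Connected)
    (hf : G.CliqueFree (Fintype.card α + 2)) (h3 : 3 ≤ Fintype.card α)
    (hn : Fintype.card α + 2 ≤ Fintype.card V) {c : V → α} {u v : V}
    (hm : Mx G c) (hb : Bad G c u v) : False := by
  classical
  obtain ⟨k, ku, k1, k3, k4, k5⟩ := partners hm hb
  have hall : ∀ z, z ∈ insert v (Set.range k) := by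
    refine closed_univ hc _ (Set.mem_insert _ _) ?_
    intro x hx z a
    by_contra hz
    simp only [Set.mem_insert_iff, Set.mem_range, not_or, not_exists] at hz
    have zu : z ≠ u := fun h => hz.2 (c u) (ku.trans h.symm)
    have t1 : G.Adj z u ↔ G.Adj z v := twin hf h3 hm hb z zu hz.1
    have t2 : ∀ d, G.Adj z u ↔ G.Adj z (k d) := by
      intro d
      by_cases hd : d = c u
      · rw [hd, ku]
      · exact twin hf h3 (k3 d hd).1 (k3 d hd).2 z zu (fun h => hz.2 d h.symm)
    have au : G.Adj z u := by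
      rcases hx with rfl | ⟨d, rfl⟩
      · exact t1.2 a
      · exact (t2 d).2 a
    exact nocl hf k k4 k5 (fun d => (t2 d).1 au) (t1.1 au)
  have : (Finset.univ : Finset V) ⊆ insert v (Finset.univ.image k) := by
    intro z _
    rcases hall z with rfl | ⟨d, rfl⟩
    · exact Finset.mem_insert_self _ _
    · exact Finset.mem_insert_of_mem (Finset.mem_image_of_mem _ (Finset.mem_univ _))
  have h1 := Finset.card_le_card this
  have h2 := Finset.card_insert_le v (Finset.univ.image k)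
  have h4 := Finset.card_image_le (s := Finset.univ) (f := k)
  simp only [Finset.card_univ] at h1 h4
  omega

/-- `U` is such that each edge inside it is told apart by a vertex outside it -/
def Good (G : SimpleGraph V) (U : Finset V) : Prop :=
  ∀ u ∈ U, ∀ v ∈ U, G.Adj u v → ∃ z, z ∉ U ∧ ¬ (G.Adj z u ↔ G.Adj z v)

lemma good_of_no_bad [Fintype V] [Fintype α] [Nonempty α] {G : SimpleGraph V} {c : V → α}
    (h : ∀ u v, ¬ Bad G c u v) :
    ∃ U : Finset V, Good G U ∧ Fintype.card V ≤ Fintype.card α * U.card := by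
  classical
  obtain ⟨d, hd⟩ := Finite.exists_max (fun d : α => (Finset.univ.filter fun x => c x = d).card)
  refine ⟨Finset.univ.filter fun x => c x = d, ?_, ?_⟩
  · intro u hu v hv a
    simp only [Finset.mem_filter, Finset.mem_univ, true_and] at hu hv ⊢
    by_contra hn
    refine h u v ⟨a, hu.trans hv.symm, fun z hz => ?_⟩
    by_contra h2
    exact hn ⟨z, hu ▸ hz, h2⟩
  · rw [← Finset.card_univ, Finset.card_eq_sum_card_fiberwise (f := c) (t := Finset.univ)
      (fun _ _ => by simp)]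
    refine (Finset.sum_le_card_nsmul _ _ _ fun e _ => hd e).trans ?_
    simp

end Pool.Agent.H.MP_cc29fe_co
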