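import Pool.Agent.H.MP_cc29fe_co.A

set_option autoImplicit false

namespace Pool.Agent.H.MP_cc29fe_co

open SimpleGraph Function

variable {V : Type}

lemma k4 {G : SimpleGraph V} (hf : G.CliqueFree 4) {a b c d : V} (h1 : G.Adj a b)
    (h2 : G.Adj a c) (h3 : G.Adj a d) (h4 : G.Adj b c) (h5 : G.Adj b d) (h6 : G.Adj c d) :
    False := by
  classical
  have h0 : G.IsNClique 3 {b, c, d} := is3Clique_triple_iff.2 ⟨h4, h5, h6⟩
  refine hf _ (h0.insert (a := a) ?_)
  intro x hx
  simp only [Finset.mem_insert, Finset.mem_singleton] at hx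
  rcases hx with rfl | rfl | rfl <;> assumption

lemma bondy [Finite V] (G : SimpleGraph V) (A W : Set V) (S : Set V) (hS : S ⊆ W) (E : Finset V)
    (hE : ∀ y ∈ E, y ∈ W ∧ y ∉ S ∧ ∃ p ∈ A, ∃ q ∈ A,
      (∀ z ∈ W, z ≠ y → (G.Adj z p ↔ G.Adj z q)) ∧ ¬ (G.Adj y p ↔ G.Adj y q)) :
    ((fun p => {z | z ∈ S ∧ G.Adj z p}) '' A).ncard + E.card ≤
      ((fun p => {z | z ∈ S ∪ E ∧ G.Adj z p}) '' A).ncard := by
  classical
  induction E using Finset.induction_on with
  | empty => simp
  | insert y E hy ih =>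
    have h1 := ih fun z hz => hE z (Finset.mem_insert_of_mem hz)
    obtain ⟨yW, yS, p, hp, q, hq, e1, e2⟩ := hE y (Finset.mem_insert_self _ _)
    have h2 := ref_lt A (fun p => {z | z ∈ S ∪ (insert y E : Finset V) ∧ G.Adj z p})
      (fun p => {z | z ∈ S ∪ E ∧ G.Adj z p}) (by
        intro a _ b _ h
        ext z
        have := Set.ext_iff.1 h z
        simp only [Set.mem_ofPred_eq, Set.mem_union, Finset.coe_insert, Set.mem_insert_iff,
          Finset.mem_coe] at this ⊢
        tauto) hp hq (by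
        ext z
        simp only [Set.mem_ofPred_eq, Set.mem_union, Finset.mem_coe]
        refine and_congr_right fun hz => e1 z ?_ ?_
        · rcases hz with hz | hz
          · exact hS hz
          · exact (hE z (Finset.mem_insert_of_mem hz)).1
        · rintro rfl
          rcases hz with hz | hz
          · exact yS hz
          · exact hy hz) (by
        intro h
        have := Set.ext_iff.1 h y
        simp only [Set.mem_ofPred_eq, Set.mem_union, Finset.coe_insert, Set.mem_insert_iff,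
          Finset.mem_coe, true_or, or_true, true_and] at this
        exact e2 this)
    rw [Finset.card_insert_of_notMem hy]
    omega

variable [DecidableEq V]

structure Sl (G : SimpleGraph V) (x : ℕ → V) (c : ℕ → V → Bool) : Prop where
  bad : ∀ n, Bad G (c n) (x n) (x (n + 1))
  upd : ∀ n, c (n + 1) = update (c n) (x (n + 1)) (!(c n (x (n + 1))))
  opp : ∀ n, c n (x (n + 2)) = !(c n (x (n + 1)))

lemma exists_sl [Finite V] {G : SimpleGraph V} {c0 : V → Bool} {u v : V} (hm : Mx G c0)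
    (hb : Bad G c0 u v) : ∃ x c, Sl G x c := by
  let S := {s : (V → Bool) × V × V // Mx G s.1 ∧ Bad G s.1 s.2.1 s.2.2}
  have h : ∀ s : S, ∃ t : S, t.1.2.1 = s.1.2.2 ∧
      t.1.1 = update s.1.1 s.1.2.2 (!(s.1.1 s.1.2.2)) ∧ s.1.1 t.1.2.2 = !(s.1.1 s.1.2.2) := by
    rintro ⟨⟨c, p, q⟩, h1, h2⟩
    obtain ⟨w, a, b, d⟩ := move h1 h2.symm (d := !(c q)) (by simp)
    exact ⟨⟨⟨_, q, w⟩, b, d⟩, rfl, rfl, a⟩
  choose f f1 f2 f3 using h
  let s : ℕ → S := fun n => f^[n] ⟨⟨c0, u, v⟩, hm, hb⟩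
  have hs : ∀ n, s (n + 1) = f (s n) := fun n => iterate_succ_apply' f n _
  have e : ∀ n, (s (n + 1)).1.2.1 = (s n).1.2.2 := fun n => by rw [hs, f1]
  refine ⟨fun n => (s n).1.2.1, fun n => (s n).1.1, fun n => ?_, fun n => ?_, fun n => ?_⟩
  · rw [e]; exact (s n).2.2
  · rw [e, hs, f2]
  · rw [e (n + 1), e n, hs, f3]

namespace Sl

variable {G : SimpleGraph V} {x : ℕ → V} {c : ℕ → V → Bool}

lemma shift (h : Sl G x c) (k : ℕ) : Sl G (fun n => x (k + n)) (fun n => c (k + n)) :=
  ⟨fun n => h.bad (k + n), fun n => h.upd (k + n), fun n => h.opp (k + n)⟩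

lemma a1 (h : Sl G x c) (n : ℕ) : G.Adj (x n) (x (n + 1)) := (h.bad n).1

lemma a2 (h : Sl G x c) (n : ℕ) : G.Adj (x n) (x (n + 2)) := by
  refine (((h.bad n).2.2 (x (n + 2)) ?_).2 (h.a1 (n + 1)).symm).symm
  rw [h.opp, (h.bad n).2.1]
  simp

lemma sig (h : Sl G x c) (n : ℕ) : c (n + 1) (x (n + 1)) = !(c n (x n)) := by
  rw [h.upd, update_self, (h.bad n).2.1]

lemma sig_ev (h : Sl G x c) (s : ℕ) : c (2 * s) (x (2 * s)) = c 0 (x 0) := by
  induction s with
  | zero => rfl
  | succ s ih =>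
    rw [show 2 * (s + 1) = 2 * s + 1 + 1 by ring, h.sig, h.sig, ih]
    simp

lemma sig_od (h : Sl G x c) (s : ℕ) : c (2 * s + 1) (x (2 * s + 1)) = !(c 0 (x 0)) := by
  rw [h.sig, h.sig_ev]

lemma stay (h : Sl G x c) (z : V) (k m : ℕ) (hk : k ≤ m) (hz : ∀ l, k < l → l ≤ m → x l ≠ z) :
    c m z = c k z := by
  induction m, hk using Nat.le_induction with
  | base => rfl
  | succ m hm ih =>
    rw [h.upd, update_of_ne (hz (m + 1) (by omega) le_rfl).symm]
    exact ih fun l a b => hz l a (by omega)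

/-- the first `N` terms are distinct and the next one is the first -/
def Per (x : ℕ → V) (N : ℕ) : Prop :=
  0 < N ∧ (∀ a b, a < N → b < N → x a = x b → a = b) ∧ x N = x 0

lemma after (h : Sl G x c) {N : ℕ} (hp : Per x N) {l m : ℕ} (h1 : l ≤ m) (h2 : m < N) :
    c m (x l) = c l (x l) :=
  h.stay _ l m h1 fun k a b e => by
    have := hp.2.1 k l (by omega) (by omega) e
    omega

lemma before (h : Sl G x c) {N : ℕ} (hp : Per x N) {l m : ℕ} (h1 : m < l) (h2 : l < N) :
    c m (x l) = !(c l (x l)) := by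
  obtain ⟨j, rfl⟩ : ∃ j, l = j + 1 := ⟨l - 1, by omega⟩
  rw [h.sig, (h.bad j).2.1, Bool.not_not]
  exact (h.stay _ m j (by omega) fun k a b e => by
    have := hp.2.1 k (j + 1) (by omega) (by omega) e
    omega).symm

lemma odd (h : Sl G x c) {N : ℕ} (hp : Per x N) : ∃ M, 1 ≤ M ∧ N = 2 * M + 1 := by
  obtain ⟨j, rfl⟩ : ∃ j, N = j + 1 := ⟨N - 1, by have := hp.1; omega⟩
  have e1 := (h.bad j).2.1
  rw [hp.2.2, h.after hp (Nat.zero_le j) (by omega)] at e1
  obtain ⟨M, rfl | rfl⟩ := Nat.even_or_odd' j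
  · refine ⟨M, ?_, rfl⟩
    by_contra hM
    have : M = 0 := by omega
    subst this
    exact (h.a1 0).ne hp.2.2.symm
  · rw [h.sig_od] at e1
    simp at e1

lemma next (h : Sl G x c) (hf : G.CliqueFree 4) {N : ℕ} (hp : Per x N) : x (N + 1) = x 1 := by
  obtain ⟨M, hM, rfl⟩ := h.odd hp
  have y0 : G.Adj (x (2 * M + 1 + 1)) (x 0) := hp.2.2 ▸ (h.a1 (2 * M + 1)).symm
  have cy : c (2 * M) (x (2 * M + 1 + 1)) = !(c 0 (x 0)) := by
    rw [h.opp, ← (h.bad _).2.1, h.sig_ev]
  have y2 : G.Adj (x (2 * M + 1 + 1)) (x 2) := by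
    refine (((h.bad (2 * M + 1)).2.2 (x 2) ?_).1 (hp.2.2 ▸ (h.a2 0).symm)).symm
    rw [h.sig_od, h.upd, update_of_ne (hp.2.2 ▸ (h.a2 0).ne.symm),
      h.after hp (by omega) (by omega), h.sig_ev 1]
    simp
  by_contra hn
  refine k4 hf y0 ?_ y2 (h.a1 0) (h.a2 0) (h.a1 1)
  by_cases hy : ∃ l, 0 < l ∧ l ≤ 2 * M ∧ x l = x (2 * M + 1 + 1)
  · obtain ⟨l, l1, l2, e⟩ := hy
    rw [← e] at cy y2 hn ⊢
    rw [h.after hp l2 (by omega)] at cy
    have l3 : 1 < l := by
      by_contra hl
      have : l = 1 := by omega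
      exact hn (by rw [this])
    refine ((h.bad 1).2.2 (x l) ?_).2 y2
    rw [h.before hp l3 (by omega), cy, h.sig_od 0]
    simp
  · refine ((h.bad 0).2.2 _ ?_).1 y0
    rw [← h.stay _ 0 (2 * M) (Nat.zero_le _) fun l a b e => hy ⟨l, a, b, e⟩, cy]
    simp

lemma per_all (h : Sl G x c) (hf : G.CliqueFree 4) {N : ℕ} (hp : Per x N) (k : ℕ) :
    Per (fun n => x (k + n)) N := by
  induction k with
  | zero => simpa using hp
  | succ k ih =>
    have e := (h.shift k).next hf ih
    refine ⟨hp.1, fun a b ha hb hab => ?_, ?_⟩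
    · have h0 : x (k + N) = x (k + 0) := ih.2.2
      have hab' : x (k + (a + 1)) = x (k + (b + 1)) := by
        rw [show k + (a + 1) = k + 1 + a by ring, show k + (b + 1) = k + 1 + b by ring]
        exact hab
      by_cases h1 : a + 1 = N
      · by_cases h2 : b + 1 = N
        · omega
        · rw [h1, h0] at hab'
          have := ih.2.1 0 (b + 1) hp.1 (by omega) hab'
          omega
      · by_cases h2 : b + 1 = N
        · rw [h2, h0] at hab'
          have := ih.2.1 (a + 1) 0 (by omega) hp.1 hab'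
          omega
        · have := ih.2.1 (a + 1) (b + 1) (by omega) (by omega) hab'
          omega
    · show x (k + 1 + N) = x (k + 1 + 0)
      rw [show k + 1 + N = k + (N + 1) by ring]
      exact e

lemma exists_per [Finite V] (h : Sl G x c) : ∃ x c N, Sl G x c ∧ Per x N := by
  classical
  have h0 : ∃ j, ∃ i, i < j ∧ x i = x j := by
    obtain ⟨i, j, hij, e⟩ := Finite.exists_ne_map_eq_of_infinite x
    rcases lt_or_gt_of_ne hij with a | a
    · exact ⟨j, i, a, e⟩
    · exact ⟨i, j, a, e.symm⟩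
  obtain ⟨i, hi, e⟩ := Nat.find_spec h0
  refine ⟨_, _, Nat.find h0 - i, h.shift i, by omega, fun a b ha hb hab => ?_, ?_⟩
  · by_contra hn
    rcases lt_or_gt_of_ne hn with l | l
    · exact Nat.find_min h0 (m := i + b) (by omega) ⟨i + a, by omega, hab⟩
    · exact Nat.find_min h0 (m := i + a) (by omega) ⟨i + b, by omega, hab.symm⟩
  · show x (i + (Nat.find h0 - i)) = x (i + 0)
    rw [show i + (Nat.find h0 - i) = Nat.find h0 by omega]
    exact e.symm

lemma cover (h : Sl G x c) (hc : G.Connected) (hf : G.CliqueFree 4) {N : ℕ} (hp : Per x N)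
    (z : V) : ∃ l, l < N ∧ x l = z := by
  have per : ∀ k, x (k + N) = x k := fun k => (h.per_all hf hp k).2.2
  have red : ∀ n, ∃ l, l < N ∧ x l = x n := by
    intro n
    induction n using Nat.strong_induction_on with
    | _ n ih =>
      by_cases hn : n < N
      · exact ⟨n, hn, rfl⟩
      · obtain ⟨l, a, b⟩ := ih (n - N) (by have := hp.1; omega)
        refine ⟨l, a, ?_⟩
        rw [b, ← per, show n - N + N = n by omega]
  have : z ∈ Set.range x := by
    refine closed_univ hc _ (Set.mem_range_self 0) ?_ z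
    rintro _ ⟨n, rfl⟩ z a
    by_contra hz
    have cz : ∀ m, c m z = c 0 z := fun m =>
      h.stay z 0 m (Nat.zero_le _) fun l _ _ e => hz ⟨l, e⟩
    have st : ∀ m, G.Adj z (x m) ↔ G.Adj z (x (m + 1)) := by
      intro m
      by_cases hm : c m z = c m (x m)
      · obtain ⟨M, _, rfl⟩ := h.odd hp
        have e := (h.shift m).sig_od M
        have := (h.bad (m + (2 * M + 1))).2.2 z (by
          rw [cz, ← cz m, hm]
          exact fun e' => by simp [← e'] at e)
        rwa [per, show m + (2 * M + 1) + 1 = m + 1 + (2 * M + 1) by ring, per] at this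
      · exact (h.bad m).2.2 z hm
    exact k4 hf a ((st n).1 a) ((st (n + 1)).1 ((st n).1 a)) (h.a1 n) (h.a2 n) (h.a1 (n + 1))
  obtain ⟨n, rfl⟩ := this
  exact red n

lemma oppo (h : Sl G x c) (hf : G.CliqueFree 4) {N : ℕ} (hp : Per x N) (a s : ℕ) (h1 : 1 ≤ s)
    (h2 : 2 * s < N) : G.Adj (x (a + 2 * s)) (x a) ↔ G.Adj (x (a + 2 * s)) (x (a + 1)) := by
  refine (h.bad a).2.2 _ ?_
  have e := (h.shift a).before (h.per_all hf hp a) (l := 2 * s) (m := 0) (by omega) h2
  have e2 := (h.shift a).sig_ev s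
  simp only [Nat.add_zero] at e e2
  rw [e, e2]
  simp

lemma fin [Fintype V] (h : Sl G x c) (hc : G.Connected) (hf : G.CliqueFree 4) {N : ℕ}
    (hp : Per x N) (hn : 4 ≤ Fintype.card V) :
    ∃ U : Finset V, Good G U ∧ Fintype.card V ≤ 2 * U.card := by
  classical
  have per : ∀ k, x (k + N) = x k := fun k => (h.per_all hf hp k).2.2
  have cov := h.cover hc hf hp
  have op := h.oppo hf hp
  have hN : Fintype.card V ≤ N := by
    have : (Finset.univ : Finset V) ⊆ (Finset.range N).image x := by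
      intro z _
      obtain ⟨l, a, b⟩ := cov z
      exact Finset.mem_image.2 ⟨l, Finset.mem_range.2 a, b⟩
    have h1 := Finset.card_le_card this
    have h2 := Finset.card_image_le (s := Finset.range N) (f := x)
    simp only [Finset.card_univ, Finset.card_range] at h1 h2
    omega
  obtain ⟨M, _, rfl⟩ := h.odd hp
  have hM : 2 ≤ M := by omega
  have inj := hp.2.1
  have n3 : ∀ a, ¬ G.Adj (x a) (x (a + 3)) := fun a e =>
    k4 hf (h.a1 a) (h.a2 a) e (h.a1 (a + 1)) (h.a2 (a + 1)) (h.a1 (a + 2))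
  set A : Finset V := (Finset.range M).image fun s => x (2 * s + 2) with hA
  set E : Finset V := (Finset.range (M - 1)).image fun s => x (2 * s + 3) with hE
  have mA : ∀ z, z ∈ A ↔ ∃ s, s < M ∧ x (2 * s + 2) = z := by simp [hA]
  have mE : ∀ z, z ∈ E ↔ ∃ s, s < M - 1 ∧ x (2 * s + 3) = z := by simp [hE]
  have cA : A.card = M := by
    rw [hA, Finset.card_image_of_injOn, Finset.card_range]
    intro a ha b hb e
    simp only [Finset.coe_range, Set.mem_Iio] at ha hb
    have := inj _ _ (by omega) (by omega) e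
    omega
  have cE : E.card = M - 1 := by
    rw [hE, Finset.card_image_of_injOn, Finset.card_range]
    intro a ha b hb e
    simp only [Finset.coe_range, Set.mem_Iio] at ha hb
    have := inj _ _ (by omega) (by omega) e
    omega
  have nA : ∀ s, s ≤ M → x (2 * s + 1) ∉ A := by
    intro s hs e
    obtain ⟨t, ht, e⟩ := (mA _).1 e
    by_cases h1 : s = M
    · rw [h1, hp.2.2] at e
      have := inj _ _ (by omega) (by omega) e
      omega
    · have := inj _ _ (by omega) (by omega) e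
      omega
  have n0 : x 0 ∉ A := hp.2.2 ▸ nA M le_rfl
  have ex : ∃ y ∈ E, ∀ p ∈ A, ∀ q ∈ A,
      (∀ z, z ∉ A → z ≠ y → (G.Adj z p ↔ G.Adj z q)) → (G.Adj y p ↔ G.Adj y q) := by
    by_contra hcon
    have b := bondy G (A : Set V) (A : Set V)ᶜ {x 0} (by simpa using n0) E (by
      intro y hy
      obtain ⟨s, hs, rfl⟩ := (mE y).1 hy
      refine ⟨nA (s + 1) (by omega), fun e => ?_, ?_⟩
      · have := inj _ _ (by omega) (by omega) e
        omega
      · by_contra h2
        refine hcon ⟨_, hy, fun p hp q hq h3 => ?_⟩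
        by_contra h4
        exact h2 ⟨p, hp, q, hq, h3, h4⟩)
    have b1 := Set.ncard_image_le (s := (A : Set V))
      (f := fun p => {z | z ∈ ({x 0} : Set V) ∪ E ∧ G.Adj z p}) (Set.toFinite _)
    have b2 : 1 < ((fun p => {z | z ∈ ({x 0} : Set V) ∧ G.Adj z p}) '' (A : Set V)).ncard := by
      rw [Set.one_lt_ncard (Set.toFinite _)]
      refine ⟨_, ⟨x 2, (mA _).2 ⟨0, by omega, rfl⟩, rfl⟩, _,
        ⟨x 4, (mA _).2 ⟨1, by omega, rfl⟩, rfl⟩, fun e => ?_⟩
      have a : G.Adj (x 0) (x 4) := ((Set.ext_iff.1 e (x 0)).1 ⟨rfl, h.a2 0⟩).2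
      exact n3 1 ((op 0 2 (by omega) (by omega)).1 a.symm).symm
    rw [Set.ncard_coe_finset] at b1
    omega
  obtain ⟨y, hy, hne⟩ := ex
  obtain ⟨o, ho, rfl⟩ := (mE y).1 hy
  have yA : x (2 * o + 3) ∉ A := nA (o + 1) (by omega)
  have np : ∀ p ∈ A, G.Adj p (x (2 * o + 3)) →
      ¬ ∀ z, z ∉ insert (x (2 * o + 3)) A → (G.Adj z p ↔ G.Adj z (x (2 * o + 3))) := by
    intro p hp' a h1
    obtain ⟨s, hs, rfl⟩ := (mA p).1 hp'
    have l : G.Adj (x (2 * o + 1)) (x (2 * s + 2)) := by
      refine (h1 _ ?_).2 (h.a2 _)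
      rw [Finset.mem_insert, not_or]
      exact ⟨(h.a2 _).ne, nA o (by omega)⟩
    have r : G.Adj (x (2 * o + 5)) (x (2 * s + 2)) := by
      refine (h1 _ ?_).2 (h.a2 _).symm
      rw [Finset.mem_insert, not_or]
      exact ⟨(h.a2 _).ne.symm, nA (o + 2) (by omega)⟩
    rcases lt_trichotomy s o with c1 | c1 | c1
    · have e := op (2 * o + 3) (M + s - o) (by omega) (by omega)
      rw [show 2 * o + 3 + 2 * (M + s - o) = 2 * s + 2 + (2 * M + 1) by omega, per] at e
      exact k4 hf a (e.1 a) r.symm (h.a1 _) (h.a2 _) (h.a1 _)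
    · subst c1
      exact n3 (2 * s + 2) r.symm
    · have e := op (2 * o + 2) (s - o) (by omega) (by omega)
      rw [show 2 * o + 2 + 2 * (s - o) = 2 * s + 2 by omega] at e
      exact k4 hf l.symm (e.2 a) a (h.a1 _) (h.a2 _) (h.a1 _)
  refine ⟨insert (x (2 * o + 3)) A, ?_, ?_⟩
  · intro p hp' q hq a
    by_contra hcon
    have same : ∀ z, z ∉ insert (x (2 * o + 3)) A → (G.Adj z p ↔ G.Adj z q) := by
      intro z hz
      by_contra h2
      exact hcon ⟨z, hz, h2⟩
    rcases Finset.mem_insert.1 hp' with rfl | hp'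
    · rcases Finset.mem_insert.1 hq with rfl | hq
      · exact a.ne rfl
      · exact np q hq a.symm fun z hz => (same z hz).symm
    · rcases Finset.mem_insert.1 hq with rfl | hq
      · exact np p hp' a same
      · have s1 : ∀ z, z ∉ A → z ≠ x (2 * o + 3) → (G.Adj z p ↔ G.Adj z q) := fun z h1 h2 =>
          same z (by rw [Finset.mem_insert, not_or]; exact ⟨h2, h1⟩)
        have s2 : ∀ z, z ∉ A → (G.Adj z p ↔ G.Adj z q) := by
          intro z hz
          by_cases h2 : z = x (2 * o + 3)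
          · rw [h2]; exact hne p hp' q hq s1
          · exact s1 z hz h2
        obtain ⟨s, hs, rfl⟩ := (mA p).1 hp'
        exact k4 hf (h.a1 (2 * s + 1)) (h.a2 (2 * s + 1))
          ((s2 _ (nA s (by omega))).1 (h.a1 _)) (h.a1 _) a
          ((s2 _ (nA (s + 1) (by omega))).1 (h.a1 (2 * s + 2)).symm)
  · rw [Finset.card_insert_of_notMem yA]
    omega

end Sl

lemma main [Fintype V] {G : SimpleGraph V} (hc : G.Connected) (t : ℕ) (ht : 2 ≤ t)
    (hf : G.CliqueFree (t + 2)) (hn : t + 2 ≤ Fintype.card V) :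
    ∃ U : Finset V, Good G U ∧ Fintype.card V ≤ t * U.card := by
  by_cases h2 : t = 2
  · subst h2
    obtain ⟨c, hm⟩ := exists_mx (α := Bool) G
    by_cases hb : ∃ u v, Bad G c u v
    · obtain ⟨u, v, hb⟩ := hb
      obtain ⟨x, c, h⟩ := exists_sl hm hb
      obtain ⟨x, c, N, h, hp⟩ := h.exists_per
      exact h.fin hc hf hp hn
    · simpa using good_of_no_bad (G := G) (c := c) fun u v h => hb ⟨u, v, h⟩
  · have : Nonempty (Fin t) := ⟨⟨0, by omega⟩⟩
    obtain ⟨c, hm⟩ := exists_mx (α := Fin t) G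
    simpa using good_of_no_bad (G := G) (c := c) fun u v h =>
      no_bad hc (by simpa using hf) (by simp; omega) (by simpa using hn) hm h

end Pool.Agent.H.MP_cc29fe_co
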